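import Mathlib

set_option autoImplicit false

namespace Pool.Agent.Results.MP_429122_al.CoreLocalizes

universe u

/-- the core of an ideal: the intersection of all its reductions. -/
def core {S : Type u} [CommRing S] (I : Ideal S) : Ideal S :=
  sInf {J | J ≤ I ∧ ∃ n : ℕ, J * I ^ n = I ^ (n + 1)}

/-- The core of a maximal ideal commutes with localization at that ideal. -/
theorem result (A : Type u) [CommRing A] (M : Ideal A) [M.IsMaximal] :
    core (IsLocalRing.maximalIdeal (Localization.AtPrime M)) =
      (core M).map (algebraMap A (Localization.AtPrime M)) := by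
  set R := Localization.AtPrime M
  have hm : IsLocalRing.maximalIdeal R = M.map (algebraMap A R) :=
    Localization.AtPrime.map_eq_maximalIdeal.symm
  have key : ∀ (J : Ideal A) (n : ℕ), M ^ n ≤ J →
      (J.map (algebraMap A R)).comap (algebraMap A R) = J := by
    intro J n h
    refine le_antisymm (fun x hx => ?_) Ideal.le_comap_map
    obtain ⟨s, hs, h1⟩ := (IsLocalization.algebraMap_mem_map_algebraMap_iff M.primeCompl R J x).1 hx
    have h2 : IsCoprime (Ideal.span {s}) (M ^ n) := by
      refine IsCoprime.pow_right (Ideal.isCoprime_iff_sup_eq.2 ?_)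
      rw [sup_comm]
      exact (Ideal.IsMaximal.out.2 _ (lt_of_le_of_ne le_sup_left fun e =>
        hs (e ▸ Ideal.mem_sup_right (Ideal.mem_span_singleton_self s))))
    obtain ⟨a, ha, b, hb, e⟩ := Ideal.isCoprime_iff_exists.1 h2
    obtain ⟨c, rfl⟩ := Ideal.mem_span_singleton'.1 ha
    have : x = c * (s * x) + b * x := by linear_combination (-x) * e
    rw [this]
    exact J.add_mem (J.mul_mem_left c h1) (J.mul_mem_right x (h hb))
  have h1 : (core (IsLocalRing.maximalIdeal R)).comap (algebraMap A R) = core M := by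
    apply le_antisymm
    · refine le_sInf fun J ⟨hJ, n, hn⟩ => ?_
      rw [← key J (n + 1) (hn ▸ Ideal.mul_le_left)]
      refine Ideal.comap_mono (sInf_le ⟨hm ▸ Ideal.map_mono hJ, n, ?_⟩)
      rw [hm, ← Ideal.map_pow, ← Ideal.map_pow, ← Ideal.map_mul, hn]
    · rw [← Ideal.map_le_iff_le_comap]
      refine le_sInf fun J ⟨hJ, n, hn⟩ => ?_
      rw [Ideal.map_le_iff_le_comap]
      have a1 : M ^ (n + 1) ≤ J.comap (algebraMap A R) := by
        rw [← Ideal.map_le_iff_le_comap, Ideal.map_pow, ← hm, ← hn]
        exact Ideal.mul_le_left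
      refine sInf_le ⟨?_, n, ?_⟩
      · exact (Ideal.comap_mono (hJ.trans hm.le)).trans (key M 1 (by simp)).le
      · rw [← key (_ * _) (n + 1 + n) (by rw [pow_add]; exact Ideal.mul_mono_left a1),
          ← key (M ^ (n + 1)) (n + 1) le_rfl, Ideal.map_mul, Ideal.map_pow, Ideal.map_pow, ← hm,
          IsLocalization.map_under M.primeCompl, hn]
  rw [← h1, IsLocalization.map_under M.primeCompl]

end Pool.Agent.Results.MP_429122_al.CoreLocalizes
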